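import Mathlib

/-!
Even-cycle-intersecting families of permutations.

* For every `n ≥ 5` the extremal even-cycle-intersecting families in `S_n` are not precisely the
  double translates of Sylow 2-subgroups: there is an extremal family which is not of this form.
  (An odd permutation always has a cycle of even length, so the even and the odd members of a
  family can be chosen independently of each other.)
* For every `n ≡ 7 (mod 8)` the maximum is at least `2 |P|`, where `P` is a Sylow 2-subgroup.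
-/

namespace Pool.Agent.Results.MP_acd7ab_co.NeverSylow

open Equiv Finset

/-- The permutation `g` has at least one cycle of even length. -/
def HasEvenCycle {n : ℕ} (g : Perm (Fin n)) : Prop := ∃ k ∈ g.cycleType, Even k

/-- `σ π⁻¹` has a cycle of even length for all distinct `σ, π ∈ F`. -/
def EvenCycleIntersecting {n : ℕ} (F : Finset (Perm (Fin n))) : Prop :=
  ∀ σ ∈ F, ∀ π ∈ F, σ ≠ π → HasEvenCycle (σ * π⁻¹)

/-- An even-cycle-intersecting family of maximum size. -/
def Extremal {n : ℕ} (F : Finset (Perm (Fin n))) : Prop :=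
  EvenCycleIntersecting F ∧
    ∀ G : Finset (Perm (Fin n)), EvenCycleIntersecting G → G.card ≤ F.card

/-- `F = σ P π` for a Sylow 2-subgroup `P` of `S_n` and `σ, π ∈ S_n`. -/
def IsDoubleTranslate {n : ℕ} (F : Finset (Perm (Fin n))) : Prop :=
  ∃ (P : Sylow 2 (Perm (Fin n))) (σ π : Perm (Fin n)),
    (F : Set (Perm (Fin n))) = {x | ∃ g ∈ P, x = σ * g * π}

lemma two_dvd_lcm (s : Multiset ℕ) (h : 2 ∣ s.lcm) : ∃ k ∈ s, 2 ∣ k := by
  induction s using Multiset.induction with
  | empty => simp at h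
  | cons a s ih =>
    rw [Multiset.lcm_cons] at h
    have h2 : 2 ∣ a * s.lcm := h.trans (lcm_dvd_mul a s.lcm)
    rcases (Nat.prime_two.dvd_mul).1 h2 with h3 | h3
    · exact ⟨a, Multiset.mem_cons_self a s, h3⟩
    · obtain ⟨k, hk, hk2⟩ := ih h3
      exact ⟨k, Multiset.mem_cons_of_mem hk, hk2⟩

lemma hasEvenCycle_iff {n : ℕ} (g : Perm (Fin n)) : HasEvenCycle g ↔ 2 ∣ orderOf g := by
  rw [← Equiv.Perm.lcm_cycleType]
  constructor
  · rintro ⟨k, hk, hk2⟩
    exact hk2.two_dvd.trans (Multiset.dvd_lcm hk)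
  · intro h
    obtain ⟨k, hk, hk2⟩ := two_dvd_lcm _ h
    exact ⟨k, hk, even_iff_two_dvd.2 hk2⟩

lemma even_order_of_odd {n : ℕ} (g : Perm (Fin n)) (hg : Perm.sign g = -1) : 2 ∣ orderOf g := by
  by_contra h
  have hodd : Odd (orderOf g) := by
    rw [← Nat.not_even_iff_odd, even_iff_two_dvd]; exact h
  have h1 : Perm.sign (g ^ orderOf g) = 1 := by rw [pow_orderOf_eq_one, map_one]
  rw [map_pow, hg, hodd.neg_one_pow] at h1
  exact absurd h1 (by decide)

lemma even_order_of_mem {n : ℕ} (P : Sylow 2 (Perm (Fin n))) (g : Perm (Fin n)) (hg : g ∈ P)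
    (h1 : g ≠ 1) : 2 ∣ orderOf g := by
  obtain ⟨k, hk⟩ := IsPGroup.iff_orderOf.1 P.isPGroup' ⟨g, hg⟩
  rw [Subgroup.orderOf_mk] at hk
  rw [hk]
  rcases Nat.eq_zero_or_pos k with rfl | hk0
  · rw [pow_zero, orderOf_eq_one_iff] at hk
    exact absurd hk h1
  · exact dvd_pow_self 2 hk0.ne'

/-- The family `P₀ ∪ P'₀ t`, for `P₀, P'₀` the sets of even members of `P, P'`. -/
noncomputable def fam {n : ℕ} (P P' : Sylow 2 (Perm (Fin n))) (t : Perm (Fin n)) :
    Finset (Perm (Fin n)) := by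
  classical
  exact (univ.filter fun x => x ∈ P ∧ Perm.sign x = 1) ∪
    (univ.filter fun x => x * t⁻¹ ∈ P' ∧ Perm.sign (x * t⁻¹) = 1)

lemma fam_ECI {n : ℕ} (P P' : Sylow 2 (Perm (Fin n))) (t : Perm (Fin n))
    (ht : Perm.sign t = -1) : EvenCycleIntersecting (fam P P' t) := by
  classical
  have key : ∀ x : Perm (Fin n), Perm.sign (x * t⁻¹) = 1 → Perm.sign x = -1 := by
    intro x hx
    rw [Perm.sign_mul, Perm.sign_inv, ht] at hx
    rcases Int.units_eq_one_or (Perm.sign x) with h | h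
    · rw [h] at hx; exact absurd hx (by decide)
    · exact h
  intro σ hσ π hπ hne
  rw [hasEvenCycle_iff]
  simp only [fam, Finset.mem_union, Finset.mem_filter, Finset.mem_univ, true_and] at hσ hπ
  rcases hσ with ⟨h1, h2⟩ | ⟨h1, h2⟩ <;> rcases hπ with ⟨h3, h4⟩ | ⟨h3, h4⟩
  · refine even_order_of_mem P _ (P.mul_mem h1 (P.inv_mem h3)) ?_
    rw [Ne, mul_inv_eq_one]; exact hne
  · apply even_order_of_odd
    rw [Perm.sign_mul, Perm.sign_inv, h2, key π h4]; rfl
  · apply even_order_of_odd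
    rw [Perm.sign_mul, Perm.sign_inv, h4, key σ h2]; rfl
  · have h5 := P'.mul_mem h1 (P'.inv_mem h3)
    have h6 : σ * t⁻¹ * (π * t⁻¹)⁻¹ = σ * π⁻¹ := by group
    rw [h6] at h5
    refine even_order_of_mem P' _ h5 ?_
    rw [Ne, mul_inv_eq_one]; exact hne

/-- The Sylow 2-subgroups of `S_n`, `n ≥ 2`, contain odd permutations. -/
lemma exists_odd {n : ℕ} (hn : 2 ≤ n) (P : Sylow 2 (Perm (Fin n))) :
    ∃ s ∈ P, Perm.sign s = -1 := by
  set t : Perm (Fin n) := swap ⟨0, by omega⟩ ⟨1, by omega⟩ with ht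
  have hts : Perm.sign t = -1 := Perm.sign_swap (by simp)
  have hp : IsPGroup 2 (Subgroup.zpowers t) := by
    apply IsPGroup.of_card (n := 1)
    rw [Nat.card_zpowers, pow_one]
    apply orderOf_eq_prime
    · rw [ht, sq, swap_mul_self]
    · intro h
      rw [h] at hts
      simp at hts
  obtain ⟨Q, hQ⟩ := hp.exists_le_sylow
  obtain ⟨g, hg⟩ := MulAction.exists_smul_eq (Perm (Fin n)) Q P
  refine ⟨g * t * g⁻¹, ?_, ?_⟩
  · rw [← hg]
    have htQ : t ∈ Q := hQ (Subgroup.mem_zpowers t)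
    have h := Subgroup.smul_mem_pointwise_smul t (MulAut.conj g) (Q : Subgroup (Perm (Fin n))) htQ
    rw [MulAut.smul_def, MulAut.conj_apply] at h
    exact h
  · rw [Perm.sign_mul, Perm.sign_mul, Perm.sign_inv, mul_comm, ← mul_assoc, hts]
    simp

/-- Half of the members of a Sylow 2-subgroup of `S_n`, `n ≥ 2`, are even. -/
lemma card_even {n : ℕ} (hn : 2 ≤ n) (P : Sylow 2 (Perm (Fin n))) :
    ∀ A : Finset (Perm (Fin n)), (∀ x, x ∈ A ↔ (x ∈ P ∧ Perm.sign x = 1)) →
      2 * A.card = Nat.card P := by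
  classical
  intro A hA
  obtain ⟨s, hs, hs1⟩ := exists_odd hn P
  let B : Finset (Perm (Fin n)) := A.image (fun x => x * s)
  have hB : B.card = A.card := Finset.card_image_of_injective _ (mul_left_injective s)
  have hAB : Disjoint A B := by
    rw [Finset.disjoint_left]
    intro x hx hx'
    obtain ⟨y, hy, rfl⟩ := Finset.mem_image.1 hx'
    have h1 := ((hA _).1 hx).2
    rw [Perm.sign_mul, hs1, ((hA _).1 hy).2] at h1
    exact absurd h1 (by decide)
  have hU : ∀ x, x ∈ A ∪ B ↔ x ∈ P := by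
    intro x
    rw [Finset.mem_union]
    constructor
    · rintro (hx | hx)
      · exact ((hA _).1 hx).1
      · obtain ⟨y, hy, rfl⟩ := Finset.mem_image.1 hx
        exact P.mul_mem ((hA _).1 hy).1 hs
    · intro hx
      rcases Int.units_eq_one_or (Perm.sign x) with h | h
      · exact Or.inl ((hA _).2 ⟨hx, h⟩)
      · right
        refine Finset.mem_image.2 ⟨x * s⁻¹, (hA _).2 ⟨P.mul_mem hx (P.inv_mem hs), ?_⟩, by simp⟩
        rw [Perm.sign_mul, Perm.sign_inv, hs1, h]; rfl
  have hcard : (A ∪ B).card = Nat.card P := (Nat.subtype_card (A ∪ B) hU).symm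
  rw [← hcard, Finset.card_union_of_disjoint hAB, hB, two_mul]

lemma card_fam {n : ℕ} (hn : 2 ≤ n) (P P' : Sylow 2 (Perm (Fin n))) (t : Perm (Fin n))
    (ht : Perm.sign t = -1) : (fam P P' t).card = Nat.card P := by
  classical
  have h1 := card_even hn P (univ.filter fun x => x ∈ P ∧ Perm.sign x = 1) (by simp)
  have h2 := card_even hn P' (univ.filter fun x => x ∈ P' ∧ Perm.sign x = 1) (by simp)
  have h3 : (univ.filter fun x : Perm (Fin n) => x * t⁻¹ ∈ P' ∧ Perm.sign (x * t⁻¹) = 1) =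
      (univ.filter fun x => x ∈ P' ∧ Perm.sign x = 1).image (fun x => x * t) := by
    ext x
    simp only [Finset.mem_filter, Finset.mem_univ, true_and, Finset.mem_image]
    constructor
    · intro h
      exact ⟨x * t⁻¹, h, by simp⟩
    · rintro ⟨y, hy, rfl⟩
      simpa using hy
  have h4 : Disjoint (univ.filter fun x => x ∈ P ∧ Perm.sign x = 1)
      (univ.filter fun x : Perm (Fin n) => x * t⁻¹ ∈ P' ∧ Perm.sign (x * t⁻¹) = 1) := by
    rw [Finset.disjoint_left]
    intro x hx hx'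
    simp only [Finset.mem_filter, Finset.mem_univ, true_and] at hx hx'
    have := hx'.2
    rw [Perm.sign_mul, Perm.sign_inv, ht, hx.2] at this
    exact absurd this (by decide)
  have h5 : Nat.card P = Nat.card P' := Nat.card_congr (P.equiv P').toEquiv
  rw [fam, Finset.card_union_of_disjoint h4, h3,
    Finset.card_image_of_injective _ (mul_left_injective t)]
  omega

lemma isPGroup_of_sq {n : ℕ} (x : Perm (Fin n)) (hx : x * x = 1) :
    ∃ P : Sylow 2 (Perm (Fin n)), x ∈ P := by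
  have hp : IsPGroup 2 (Subgroup.zpowers x) := by
    have h2 : orderOf x ∣ 2 ^ 1 := by
      rw [pow_one, orderOf_dvd_iff_pow_eq_one, sq, hx]
    obtain ⟨k, -, hk⟩ := (Nat.dvd_prime_pow Nat.prime_two).1 h2
    apply IsPGroup.of_card (n := k)
    rw [Nat.card_zpowers, hk]
  obtain ⟨Q, hQ⟩ := hp.exists_le_sylow
  exact ⟨Q, hQ (Subgroup.mem_zpowers x)⟩

/-- The family `fam P P' t` is not a double translate for suitable `P`, `P'`, `t`. -/
lemma exists_fam {n : ℕ} (hn : 5 ≤ n) : ∃ (P P' : Sylow 2 (Perm (Fin n))) (t : Perm (Fin n)),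
    Perm.sign t = -1 ∧ ¬ IsDoubleTranslate (fam P P' t) := by
  classical
  obtain ⟨a, ha⟩ : ∃ a : Fin n, a.val = 0 := ⟨⟨0, by omega⟩, rfl⟩
  obtain ⟨b, hb⟩ : ∃ b : Fin n, b.val = 1 := ⟨⟨1, by omega⟩, rfl⟩
  obtain ⟨c, hc⟩ : ∃ c : Fin n, c.val = 2 := ⟨⟨2, by omega⟩, rfl⟩
  obtain ⟨d, hd⟩ : ∃ d : Fin n, d.val = 3 := ⟨⟨3, by omega⟩, rfl⟩
  obtain ⟨e, he⟩ : ∃ e : Fin n, e.val = 4 := ⟨⟨4, by omega⟩, rfl⟩
  have hab : a ≠ b := by intro h; rw [h] at ha; omega
  have hac : a ≠ c := by intro h; rw [h] at ha; omega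
  have had : a ≠ d := by intro h; rw [h] at ha; omega
  have hae : a ≠ e := by intro h; rw [h] at ha; omega
  have hbc : b ≠ c := by intro h; rw [h] at hb; omega
  have hbd : b ≠ d := by intro h; rw [h] at hb; omega
  have hbe : b ≠ e := by intro h; rw [h] at hb; omega
  have hcd : c ≠ d := by intro h; rw [h] at hc; omega
  have hce : c ≠ e := by intro h; rw [h] at hc; omega
  have hde : d ≠ e := by intro h; rw [h] at hd; omega
  have com1 : swap a b * swap c d = swap c d * swap a b := by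
    rw [Equiv.mul_swap_eq_swap_mul, swap_apply_of_ne_of_ne hac.symm hbc.symm,
      swap_apply_of_ne_of_ne had.symm hbd.symm]
  have com2 : swap a b * swap c e = swap c e * swap a b := by
    rw [Equiv.mul_swap_eq_swap_mul, swap_apply_of_ne_of_ne hac.symm hbc.symm,
      swap_apply_of_ne_of_ne hae.symm hbe.symm]
  obtain ⟨P, hP⟩ := isPGroup_of_sq (swap a b * swap c d) (by
    calc swap a b * swap c d * (swap a b * swap c d)
        = swap a b * (swap c d * swap a b) * swap c d := by group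
      _ = (swap a b * swap a b) * (swap c d * swap c d) := by rw [← com1]; group
      _ = 1 := by rw [swap_mul_self, swap_mul_self, one_mul])
  obtain ⟨P', hP'⟩ := isPGroup_of_sq (swap a b * swap c e) (by
    calc swap a b * swap c e * (swap a b * swap c e)
        = swap a b * (swap c e * swap a b) * swap c e := by group
      _ = (swap a b * swap a b) * (swap c e * swap c e) := by rw [← com2]; group
      _ = 1 := by rw [swap_mul_self, swap_mul_self, one_mul])
  have ht : Perm.sign (swap a b) = -1 := Perm.sign_swap hab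
  refine ⟨P, P', swap a b, ht, ?_⟩
  rintro ⟨Q, σ, π, hF⟩
  have hmem : ∀ x, x ∈ fam P P' (swap a b) ↔ ∃ g ∈ Q, x = σ * g * π := by
    intro x
    have := Set.ext_iff.1 hF x
    simpa using this
  have hmem' : ∀ x, x ∈ fam P P' (swap a b) ↔ (x ∈ P ∧ Perm.sign x = 1) ∨
      (x * (swap a b)⁻¹ ∈ P' ∧ Perm.sign (x * (swap a b)⁻¹) = 1) := by
    intro x
    simp [fam]
  -- `F` contains `1`, `t = (a b)` and `x = (a b)(c d)`
  have h1 : (1 : Perm (Fin n)) ∈ fam P P' (swap a b) :=
    (hmem' _).2 (Or.inl ⟨P.one_mem, map_one _⟩)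
  have h2 : swap a b ∈ fam P P' (swap a b) :=
    (hmem' _).2 (Or.inr (by rw [mul_inv_cancel]; exact ⟨P'.one_mem, map_one _⟩))
  have h3 : swap a b * swap c d ∈ fam P P' (swap a b) :=
    (hmem' _).2 (Or.inl ⟨hP, by rw [Perm.sign_mul, ht, Perm.sign_swap hcd]; rfl⟩)
  obtain ⟨g1, hg1, e1⟩ := (hmem _).1 h1
  obtain ⟨g2, hg2, e2⟩ := (hmem _).1 h2
  obtain ⟨g3, hg3, e3⟩ := (hmem _).1 h3
  -- hence `x t`
  have h4 : swap a b * swap c d * swap a b ∈ fam P P' (swap a b) := by
    rw [hmem]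
    refine ⟨g3 * g1⁻¹ * g2, Q.mul_mem (Q.mul_mem hg3 (Q.inv_mem hg1)) hg2, ?_⟩
    have hπ : π = g1⁻¹ * σ⁻¹ := by
      have : σ * g1 * π = 1 := e1.symm
      rw [mul_eq_one_iff_inv_eq] at this
      rw [← this, mul_inv_rev]
    calc swap a b * swap c d * swap a b = (σ * g3 * π) * (σ * g2 * π) := by rw [← e3, ← e2]
      _ = _ := by rw [hπ]; group
  rcases (hmem' _).1 h4 with ⟨-, h5⟩ | ⟨h5, -⟩
  · rw [Perm.sign_mul, Perm.sign_mul, ht, Perm.sign_swap hcd] at h5
    exact absurd h5 (by decide)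
  · rw [mul_inv_cancel_right] at h5
    have h6 := P'.mul_mem h5 hP'
    have h7 : swap a b * swap c d * (swap a b * swap c e) = swap c d * swap c e := by
      calc swap a b * swap c d * (swap a b * swap c e)
          = swap a b * (swap c d * swap a b) * swap c e := by group
        _ = (swap a b * swap a b) * (swap c d * swap c e) := by rw [← com1]; group
        _ = _ := by rw [swap_mul_self, one_mul]
    rw [h7] at h6
    have h8 := (Perm.isThreeCycle_swap_mul_swap_same hcd hce hde).orderOf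
    have h9 : swap c d * swap c e ≠ 1 := by
      intro h; rw [h, orderOf_one] at h8; omega
    have := even_order_of_mem P' _ h6 h9
    rw [h8] at this
    omega

lemma exists_extremal (n : ℕ) : ∃ F : Finset (Perm (Fin n)), Extremal F := by
  classical
  obtain ⟨F, hF, hmax⟩ := Finset.exists_max_image
    (univ.filter fun F : Finset (Perm (Fin n)) => EvenCycleIntersecting F) Finset.card
    ⟨∅, Finset.mem_filter.2 ⟨Finset.mem_univ _, by intro σ hσ; simp at hσ⟩⟩
  refine ⟨F, (Finset.mem_filter.1 hF).2, fun G hG => hmax G (by simpa using hG)⟩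

lemma card_doubleTranslate {n : ℕ} (F : Finset (Perm (Fin n))) (hF : IsDoubleTranslate F)
    (P : Sylow 2 (Perm (Fin n))) : F.card = Nat.card P := by
  obtain ⟨Q, σ, π, h⟩ := hF
  have h1 : Nat.card (F : Set (Perm (Fin n))) = F.card := by simp
  rw [← h1, h, Nat.card_congr (P.equiv Q).toEquiv]
  refine Nat.card_congr ⟨fun x => ⟨σ⁻¹ * x.1 * π⁻¹, ?_⟩, fun g => ⟨σ * g.1 * π, g.1, g.2, rfl⟩,
    ?_, ?_⟩
  · obtain ⟨g, hg, hx⟩ := x.2
    have : σ⁻¹ * x.1 * π⁻¹ = g := by rw [hx]; group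
    rw [this]; exact hg
  · intro x
    apply Subtype.ext
    show σ * (σ⁻¹ * x.1 * π⁻¹) * π = x.1
    group
  · intro g
    apply Subtype.ext
    show σ⁻¹ * (σ * g.1 * π) * π⁻¹ = g.1
    group

/-- For every `n ≥ 5` there is an extremal family that is not a double translate of a Sylow
2-subgroup. -/
theorem not_unique {n : ℕ} (hn : 5 ≤ n) :
    ∃ F : Finset (Perm (Fin n)), Extremal F ∧ ¬ IsDoubleTranslate F := by
  by_contra hcon
  push Not at hcon
  obtain ⟨F, hF⟩ := exists_extremal n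
  obtain ⟨P, P', t, ht, hfam⟩ := exists_fam hn
  refine hfam (hcon _ ⟨fam_ECI P P' t ht, fun G hG => ?_⟩)
  rw [card_fam (by omega) P P' t ht, ← card_doubleTranslate F (hcon F hF) P]
  exact hF.2 G hG

/-! ### Larger families for `n ≡ 7 (mod 8)` -/

/-- Sixteen even permutations of `Fin 7`. -/
def tab : Fin 16 → Fin 7 → Fin 7 := ![
    ![0, 1, 2, 3, 4, 5, 6],
    ![0, 2, 1, 4, 3, 5, 6],
    ![0, 3, 4, 1, 2, 5, 6],
    ![0, 4, 3, 2, 1, 5, 6],
    ![6, 5, 4, 3, 1, 2, 0],
    ![6, 5, 3, 4, 2, 1, 0],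
    ![6, 5, 2, 1, 3, 4, 0],
    ![6, 5, 1, 2, 4, 3, 0],
    ![5, 6, 4, 3, 1, 0, 2],
    ![5, 6, 3, 4, 2, 0, 1],
    ![5, 6, 2, 1, 3, 0, 4],
    ![5, 6, 1, 2, 4, 0, 3],
    ![4, 0, 3, 2, 1, 6, 5],
    ![3, 0, 4, 1, 2, 6, 5],
    ![2, 0, 1, 4, 3, 6, 5],
    ![1, 0, 2, 3, 4, 6, 5]]

/-- The inverse permutations. -/
def itab : Fin 16 → Fin 7 → Fin 7 := ![
    ![0, 1, 2, 3, 4, 5, 6],
    ![0, 2, 1, 4, 3, 5, 6],
    ![0, 3, 4, 1, 2, 5, 6],
    ![0, 4, 3, 2, 1, 5, 6],
    ![6, 4, 5, 3, 2, 1, 0],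
    ![6, 5, 4, 2, 3, 1, 0],
    ![6, 3, 2, 4, 5, 1, 0],
    ![6, 2, 3, 5, 4, 1, 0],
    ![5, 4, 6, 3, 2, 0, 1],
    ![5, 6, 4, 2, 3, 0, 1],
    ![5, 3, 2, 4, 6, 0, 1],
    ![5, 2, 3, 6, 4, 0, 1],
    ![1, 4, 3, 2, 0, 6, 5],
    ![1, 3, 4, 0, 2, 6, 5],
    ![1, 2, 0, 4, 3, 6, 5],
    ![1, 0, 2, 3, 4, 6, 5]]

/-- The sixteen permutations. -/
def pm (k : Fin 16) : Perm (Fin 7) where
  toFun := tab k
  invFun := itab k
  left_inv := by revert k; unfold Function.LeftInverse; decide +kernel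
  right_inv := by revert k; unfold Function.RightInverse Function.LeftInverse; decide +kernel

lemma check : ∀ i j : Fin 16, i ≠ j → ∃ x : Fin 7,
    ((fun y => tab i (itab j y))^[6] x = x ∧ (fun y => tab i (itab j y))^[3] x ≠ x) ∨
    ((fun y => tab i (itab j y))^[4] x = x ∧ (fun y => tab i (itab j y))^[2] x ≠ x) := by
  decide +kernel

lemma even_order_of_cert {α : Type*} (g : Perm α) (m : ℕ) (x : α) (h1 : g^[2 * m] x = x)
    (h2 : g^[m] x ≠ x) : ¬ Odd (orderOf g) := by
  intro hodd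
  apply h2
  obtain ⟨k, hk⟩ := hodd
  have e1 : (g ^ m) = (g ^ (2 * m)) ^ (k + 1) := by
    have : 2 * m * (k + 1) = m + orderOf g * m := by rw [hk]; ring
    rw [← pow_mul, this, pow_add, pow_mul, pow_orderOf_eq_one, one_pow, mul_one]
  have e2 : ∀ r : ℕ, ((g ^ (2 * m)) ^ r) x = x := by
    intro r
    induction r with
    | zero => simp
    | succ r ih =>
      rw [pow_succ, Perm.mul_apply]
      have : (g ^ (2 * m)) x = x := by
        rw [← Perm.iterate_eq_pow]; exact h1
      rw [this, ih]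
  have e3 := e2 (k + 1)
  rw [← e1] at e3
  rw [Perm.iterate_eq_pow]
  exact e3

/-- The predicate behind `EvenCycleIntersecting`, for an arbitrary group. -/
def EI {G : Type*} [Group G] (F : Finset G) : Prop :=
  ∀ σ ∈ F, ∀ π ∈ F, σ ≠ π → 2 ∣ orderOf (σ * π⁻¹)

lemma EI_iff {n : ℕ} (F : Finset (Perm (Fin n))) : EvenCycleIntersecting F ↔ EI F := by
  unfold EvenCycleIntersecting EI
  simp only [hasEvenCycle_iff]

lemma two_dvd_of_not_odd {n : ℕ} (h : ¬ Odd n) : 2 ∣ n := by
  rwa [Nat.not_odd_iff_even, even_iff_two_dvd] at h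

lemma pm_even_order (i j : Fin 16) (hij : i ≠ j) : 2 ∣ orderOf (pm i * (pm j)⁻¹) := by
  have hfun : ⇑(pm i * (pm j)⁻¹) = fun y => tab i (itab j y) := rfl
  apply two_dvd_of_not_odd
  obtain ⟨x, h | h⟩ := check i j hij
  · exact even_order_of_cert _ 3 x (by rw [hfun]; exact h.1) (by rw [hfun]; exact h.2)
  · exact even_order_of_cert _ 2 x (by rw [hfun]; exact h.1) (by rw [hfun]; exact h.2)

lemma pm_injective : Function.Injective pm := by
  intro i j h
  by_contra hij
  have := pm_even_order i j hij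
  rw [h, mul_inv_cancel, orderOf_one] at this
  omega

lemma pm_sign : ∀ i, Perm.sign (pm i) = 1 := by
  decide +kernel

/-- Thirty-two permutations of `Fin 7`. -/
noncomputable def F32 : Finset (Perm (Fin 7)) := by
  classical
  exact (univ.image pm) ∪ (univ.image fun i => pm i * swap 0 1)

lemma F32_EI : EI F32 := by
  classical
  intro σ hσ π hπ hne
  simp only [F32, Finset.mem_union, Finset.mem_image, Finset.mem_univ, true_and] at hσ hπ
  have hs : Perm.sign (swap (0 : Fin 7) 1) = -1 := Perm.sign_swap (by decide)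
  rcases hσ with ⟨i, rfl⟩ | ⟨i, rfl⟩ <;> rcases hπ with ⟨j, rfl⟩ | ⟨j, rfl⟩
  · exact pm_even_order i j fun h => hne (by rw [h])
  · apply even_order_of_odd
    rw [Perm.sign_mul, Perm.sign_inv, Perm.sign_mul, pm_sign, pm_sign, hs]; rfl
  · apply even_order_of_odd
    rw [Perm.sign_mul, Perm.sign_inv, Perm.sign_mul, pm_sign, pm_sign, hs]; rfl
  · have : pm i * swap 0 1 * (pm j * swap 0 1)⁻¹ = pm i * (pm j)⁻¹ := by group
    rw [this]
    exact pm_even_order i j fun h => hne (by rw [h])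

lemma F32_card : F32.card = 32 := by
  classical
  have hs : Perm.sign (swap (0 : Fin 7) 1) = -1 := Perm.sign_swap (by decide)
  rw [F32, Finset.card_union_of_disjoint, Finset.card_image_of_injective _ pm_injective,
    Finset.card_image_of_injective]
  · simp
  · intro i j h
    exact pm_injective (mul_right_cancel h)
  · rw [Finset.disjoint_left]
    intro x hx hx'
    simp only [Finset.mem_image, Finset.mem_univ, true_and] at hx hx'
    obtain ⟨i, rfl⟩ := hx
    obtain ⟨j, hj⟩ := hx'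
    have := congrArg Perm.sign hj
    rw [Perm.sign_mul, pm_sign, pm_sign, hs] at this
    exact absurd this (by decide)

lemma EI.image {G H : Type*} [Group G] [Group H] [DecidableEq H] {F : Finset G} (hF : EI F)
    (φ : G →* H) (hφ : Function.Injective φ) : EI (F.image φ) := by
  intro σ hσ π hπ hne
  obtain ⟨a, ha, rfl⟩ := Finset.mem_image.1 hσ
  obtain ⟨b, hb, rfl⟩ := Finset.mem_image.1 hπ
  rw [← map_inv, ← map_mul, orderOf_injective φ hφ]
  exact hF a ha b hb fun h => hne (by rw [h])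

lemma EI.prod {G H : Type*} [Group G] [Group H] {F : Finset G} {F' : Finset H} (hF : EI F)
    (hF' : EI F') : EI (F ×ˢ F') := by
  intro σ hσ π hπ hne
  rw [Finset.mem_product] at hσ hπ
  rw [Prod.orderOf]
  by_cases h : σ.1 = π.1
  · have h' : σ.2 ≠ π.2 := fun h' => hne (Prod.ext h h')
    exact (hF' _ hσ.2 _ hπ.2 h').trans (Nat.dvd_lcm_right _ _)
  · exact (hF _ hσ.1 _ hπ.1 h).trans (Nat.dvd_lcm_left _ _)

lemma fact_eq (q : ℕ) : (8 * q + 7).factorial = (8 * q).factorial * (2 ^ 4 *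
    ((8 * q + 1) * (4 * q + 1) * (8 * q + 3) * (2 * q + 1) * (8 * q + 5) * (4 * q + 3) *
      (8 * q + 7))) := by
  simp only [Nat.factorial_succ]
  ring

lemma card_sylow_succ (q : ℕ) (P : Sylow 2 (Perm (Fin (8 * q))))
    (Q : Sylow 2 (Perm (Fin (8 * q + 7)))) : Nat.card Q = 16 * Nat.card P := by
  rw [Sylow.card_eq_multiplicity, Sylow.card_eq_multiplicity, Nat.card_perm, Nat.card_perm,
    Nat.card_fin, Nat.card_fin, fact_eq]
  set M := (8 * q + 1) * (4 * q + 1) * (8 * q + 3) * (2 * q + 1) * (8 * q + 5) * (4 * q + 3) *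
      (8 * q + 7) with hM
  have hodd : ¬ 2 ∣ M := by
    rw [hM]
    simp only [Nat.prime_two.dvd_mul, not_or]
    omega
  have hM0 : M ≠ 0 := by positivity
  rw [Nat.factorization_mul (Nat.factorial_ne_zero _) (by positivity),
    Nat.factorization_mul (by positivity) hM0, Finsupp.add_apply, Finsupp.add_apply,
    Nat.factorization_eq_zero_of_not_dvd hodd, Nat.Prime.factorization_pow Nat.prime_two]
  simp only [Finsupp.single_eq_same, add_zero]
  rw [pow_add]
  norm_num
  ring

/-- For `n = 8 q + 7` there is an even-cycle-intersecting family with twice as many members as a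
Sylow 2-subgroup. -/
theorem larger (q : ℕ) : ∃ F : Finset (Perm (Fin (8 * q + 7))), EvenCycleIntersecting F ∧
    ∀ Q : Sylow 2 (Perm (Fin (8 * q + 7))), F.card = 2 * Nat.card Q := by
  classical
  obtain ⟨P⟩ : Nonempty (Sylow 2 (Perm (Fin (8 * q)))) := inferInstance
  let A : Finset (Perm (Fin (8 * q))) := univ.filter fun x => x ∈ P
  have hA : EI A := by
    intro σ hσ π hπ hne
    simp only [A, Finset.mem_filter, Finset.mem_univ, true_and] at hσ hπ
    refine even_order_of_mem P _ (P.mul_mem hσ (P.inv_mem hπ)) ?_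
    rw [Ne, mul_inv_eq_one]; exact hne
  have hAmem : ∀ x, x ∈ A ↔ x ∈ (P : Subgroup (Perm (Fin (8 * q)))) := by
    intro x
    simp only [A, Finset.mem_filter, Finset.mem_univ, true_and]
    exact Iff.rfl
  have hAcard : A.card = Nat.card P := (Nat.subtype_card A hAmem).symm
  let e : Perm (Fin (8 * q) ⊕ Fin 7) ≃* Perm (Fin (8 * q + 7)) := finSumFinEquiv.permCongrHom
  let φ : Perm (Fin (8 * q)) × Perm (Fin 7) →* Perm (Fin (8 * q + 7)) :=
    e.toMonoidHom.comp (Perm.sumCongrHom (Fin (8 * q)) (Fin 7))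
  have hφ : Function.Injective φ := fun x y h => Perm.sumCongrHom_injective (e.injective h)
  refine ⟨(A ×ˢ F32).image φ, ?_, fun Q => ?_⟩
  · rw [EI_iff]
    exact (hA.prod F32_EI).image φ hφ
  · rw [Finset.card_image_of_injective _ hφ, Finset.card_product, hAcard, F32_card,
      card_sylow_succ q P Q]
    ring

/-- **Main theorem.**
1. For every `n ≥ 5` there is an extremal even-cycle-intersecting family in `S_n` which is not a
   double translate of a Sylow 2-subgroup.
2. Hence for every `n ≥ 5` (in particular not for all `n ≥ 2`) it is false that the extremal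
   families are precisely the double translates.
3. For every `n ≡ 7 (mod 8)` some even-cycle-intersecting family in `S_n` has exactly twice as many
   members as a Sylow 2-subgroup. -/
theorem result :
    (∀ n : ℕ, 5 ≤ n → ∃ F : Finset (Perm (Fin n)), Extremal F ∧ ¬ IsDoubleTranslate F) ∧
    (∀ n : ℕ, 5 ≤ n → ¬ ∀ F : Finset (Perm (Fin n)), Extremal F ↔ IsDoubleTranslate F) ∧
    (∀ q : ℕ, ∃ F : Finset (Perm (Fin (8 * q + 7))), EvenCycleIntersecting F ∧
      ∀ Q : Sylow 2 (Perm (Fin (8 * q + 7))), F.card = 2 * Nat.card Q) := by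
  refine ⟨fun n hn => not_unique hn, fun n hn h => ?_, larger⟩
  obtain ⟨F, hF, hF'⟩ := not_unique hn
  exact hF' ((h F).1 hF)

end Pool.Agent.Results.MP_acd7ab_co.NeverSylow
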